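import Mathlib

set_option autoImplicit false

namespace Pool.Agent.Results.MP_d064d6_lc.NotConvex

/-- Antiferromagnetic Potts interaction matrix: `β` on the diagonal, `1` off it. -/
noncomputable def A (q : ℕ) (β : ℝ) (c b : Fin q) : ℝ := if c = b then β else 1

/-- `G_c(μ)`: the expectation under the probability vector `μ` on `[q]^d` of the product of
`A c (τ i)`. -/
noncomputable def G (q d : ℕ) (β : ℝ) (μ : (Fin d → Fin q) → ℝ) (c : Fin q) : ℝ :=
  ∑ τ : Fin d → Fin q, μ τ * ∏ i : Fin d, A q β c (τ i)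

/-- The belief propagation map: `G(μ)` normalised to sum one. -/
noncomputable def F (q d : ℕ) (β : ℝ) (μ : (Fin d → Fin q) → ℝ) : Fin q → ℝ :=
  fun c => G q d β μ c / ∑ c' : Fin q, G q d β μ c'

/-- The product measure `p_1 ⊗ ... ⊗ p_d`, as a probability vector on `[q]^d`. -/
noncomputable def prodMeasure (q d : ℕ) (p : Fin d → Fin q → ℝ) : (Fin d → Fin q) → ℝ :=
  fun τ => ∏ i : Fin d, p i (τ i)

/-- The image of the product measures under the belief propagation map. -/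
def Fprod (q d : ℕ) (β : ℝ) : Set (Fin q → ℝ) :=
  {y | ∃ p : Fin d → Fin q → ℝ, (∀ i, p i ∈ stdSimplex ℝ (Fin q)) ∧
    y = F q d β (prodMeasure q d p)}

lemma G_prod (q d : ℕ) (β : ℝ) (p : Fin d → Fin q → ℝ)
    (hp : ∀ i, p i ∈ stdSimplex ℝ (Fin q)) (c : Fin q) :
    G q d β (prodMeasure q d p) c = ∏ i : Fin d, (1 - (1 - β) * p i c) := by
  have h1 : ∀ i, (1 - (1 - β) * p i c) = ∑ b : Fin q, p i b * A q β c b := by
    intro i
    have h2 : ∀ b, p i b * A q β c b = p i b - (if c = b then (1 - β) * p i b else 0) := by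
      intro b; unfold A; split_ifs <;> ring
    simp only [h2, Finset.sum_sub_distrib, (hp i).2, Finset.sum_ite_eq, Finset.mem_univ, if_true]
  simp only [h1]
  rw [Finset.prod_univ_sum]
  unfold G prodMeasure
  simp only [Fintype.piFinset_univ, Finset.prod_mul_distrib]

lemma vertex_mem (q : ℕ) (β : ℝ) (a b : Fin q) (hab : a ≠ b) :
    (fun c => (if c = a ∨ c = b then β else 1) / ((q : ℝ) - 2 * (1 - β))) ∈ Fprod q 2 β := by
  have hp : ∀ i : Fin 2, (![Pi.single a (1 : ℝ), Pi.single b (1 : ℝ)] :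
      Fin 2 → Fin q → ℝ) i ∈ stdSimplex ℝ (Fin q) := by
    intro i
    fin_cases i
    · exact single_mem_stdSimplex ℝ a
    · exact single_mem_stdSimplex ℝ b
  refine ⟨_, hp, ?_⟩
  have hG : ∀ c, G q 2 β (prodMeasure q 2 ![Pi.single a (1 : ℝ), Pi.single b (1 : ℝ)]) c =
      if c = a ∨ c = b then β else 1 := by
    intro c
    rw [G_prod q 2 β _ hp, Fin.prod_univ_two]
    by_cases ha : c = a
    · subst ha; simp [Pi.single_apply, hab]
    · by_cases hb : c = b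
      · subst hb; simp [Pi.single_apply, ha]
      · simp [Pi.single_apply, ha, hb]
  have hS : ∑ c : Fin q, (if c = a ∨ c = b then β else 1) = (q : ℝ) - 2 * (1 - β) := by
    have h2 : ∀ c : Fin q, (if c = a ∨ c = b then β else 1) =
        1 - (if a = c then (1 - β) else 0) - (if b = c then (1 - β) else 0) := by
      intro c
      by_cases ha : c = a
      · subst ha; simp [hab.symm]
      · by_cases hb : c = b
        · subst hb; simp [hab]
        · simp [ha, hb, Ne.symm ha, Ne.symm hb]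
    simp only [h2, Finset.sum_sub_distrib, Finset.sum_ite_eq, Finset.mem_univ, if_true]
    simp
    ring
  funext c
  simp only [F, hG, hS]

lemma key (g s x y : ℝ) (hg : 0 < g) (hg1 : g ≤ 1) (hs : s ≤ 1)
    (h : (1 - g * x) * (1 - g * y) = s * (1 - 2 * g / 3)) : 2 / 3 + g * (x * y) ≤ x + y := by
  have h0 : 0 ≤ 1 - 2 * g / 3 := by linarith
  have h1 : s * (1 - 2 * g / 3) ≤ 1 * (1 - 2 * g / 3) := mul_le_mul_of_nonneg_right hs h0
  have h2 : g * (2 / 3 + g * (x * y)) ≤ g * (x + y) := by nlinarith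
  exact le_of_mul_le_mul_left h2 hg

lemma arith (g s x1 x2 x3 y1 y2 y3 : ℝ) (hg : 0 < g) (hg1 : g ≤ 1) (hs : s ≤ 1)
    (a1 : 0 ≤ x1) (a2 : 0 ≤ x2) (a3 : 0 ≤ x3) (b1 : 0 ≤ y1) (b2 : 0 ≤ y2) (b3 : 0 ≤ y3)
    (sx : x1 + x2 + x3 ≤ 1) (sy : y1 + y2 + y3 ≤ 1)
    (f1 : (1 - g * x1) * (1 - g * y1) = s * (1 - 2 * g / 3))
    (f2 : (1 - g * x2) * (1 - g * y2) = s * (1 - 2 * g / 3))
    (f3 : (1 - g * x3) * (1 - g * y3) = s * (1 - 2 * g / 3)) : False := by
  have k1 := key _ _ _ _ hg hg1 hs f1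
  have k2 := key _ _ _ _ hg hg1 hs f2
  have k3 := key _ _ _ _ hg hg1 hs f3
  clear f1 f2 f3
  have n1 : 0 ≤ g * (x1 * y1) := by positivity
  have n2 : 0 ≤ g * (x2 * y2) := by positivity
  have n3 : 0 ≤ g * (x3 * y3) := by positivity
  have z1 : x1 * y1 = 0 :=
    (mul_eq_zero.1 (show g * (x1 * y1) = 0 by linarith)).resolve_left hg.ne'
  have z2 : x2 * y2 = 0 :=
    (mul_eq_zero.1 (show g * (x2 * y2) = 0 by linarith)).resolve_left hg.ne'
  have z3 : x3 * y3 = 0 :=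
    (mul_eq_zero.1 (show g * (x3 * y3) = 0 by linarith)).resolve_left hg.ne'
  rw [z1] at k1
  rw [z2] at k2
  rw [z3] at k3
  rcases mul_eq_zero.1 z1 with w1 | w1 <;> rcases mul_eq_zero.1 z2 with w2 | w2 <;>
    rcases mul_eq_zero.1 z3 with w3 | w3 <;> linarith

lemma prod_le_one (g x y : ℝ) (hg : 0 < g) (hg1 : g ≤ 1) (hx : 0 ≤ x) (hy : 0 ≤ y) (hy1 : y ≤ 1) :
    (1 - g * x) * (1 - g * y) ≤ 1 := by
  have a1 : 0 ≤ g * x := by positivity
  have a2 : 0 ≤ g * y := by positivity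
  have a3 : g * y ≤ 1 := mul_le_one₀ hg1 hy hy1
  nlinarith

lemma solve0 (u S D : ℝ) (hS : S ≠ 0) (hD : 0 < D)
    (e : 2 / 3 * (1 / 2 * (1 / D) + 1 / 2 * (1 / D)) + 1 / 3 * (1 / D) = u / S) : u = S / D := by
  field_simp at e ⊢; linarith

lemma solve1 (u S D g w : ℝ) (hS : S ≠ 0) (hD : 0 < D) (hw : w = (1 - 2 * g / 3) / D)
    (e : w = u / S) : u = S / D * (1 - 2 * g / 3) := by
  rw [hw] at e; field_simp at e ⊢; linarith

theorem result (q : ℕ) (hq : 4 ≤ q) (β : ℝ)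
    (hβ0 : max 0 (1 - (q : ℝ) / (((2 : ℕ) : ℝ) + 1)) ≤ β) (hβ1 : β < 1) :
    ¬ Convex ℝ (Fprod q 2 β) := by
  intro hconv
  have h0 : 0 ≤ β := le_trans (le_max_left _ _) hβ0
  set c0 : Fin q := ⟨0, by omega⟩ with hc0
  set c1 : Fin q := ⟨1, by omega⟩ with hc1
  set c2 : Fin q := ⟨2, by omega⟩ with hc2
  set c3 : Fin q := ⟨3, by omega⟩ with hc3
  have h01 : c0 ≠ c1 := by simp [hc0, hc1]
  have h02 : c0 ≠ c2 := by simp [hc0, hc2]
  have h03 : c0 ≠ c3 := by simp [hc0, hc3]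
  have h12 : c1 ≠ c2 := by simp [hc1, hc2]
  have h13 : c1 ≠ c3 := by simp [hc1, hc3]
  have h23 : c2 ≠ c3 := by simp [hc2, hc3]
  have hq' : (4 : ℝ) ≤ q := by exact_mod_cast hq
  set D : ℝ := (q : ℝ) - 2 * (1 - β) with hD
  have hDpos : 0 < D := by rw [hD]; linarith
  have m1 := hconv (vertex_mem q β c1 c2 h12) (vertex_mem q β c1 c3 h13)
    (a := 1 / 2) (b := 1 / 2) (by norm_num) (by norm_num) (by norm_num)
  have m2 := hconv m1 (vertex_mem q β c2 c3 h23)
    (a := 2 / 3) (b := 1 / 3) (by norm_num) (by norm_num) (by norm_num)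
  obtain ⟨p, hp, hy⟩ := m2
  have e0 := congrFun hy c0
  have e1 := congrFun hy c1
  have e2 := congrFun hy c2
  have e3 := congrFun hy c3
  simp only [F, G_prod q 2 β p hp, Fin.prod_univ_two, Pi.add_apply, Pi.smul_apply, smul_eq_mul,
    h01, h02, h03, h12, h13, h23, h12.symm, h13.symm, h23.symm, or_self, if_false, true_or,
    or_true, if_true, ← hD] at e0 e1 e2 e3
  generalize (∑ c' : Fin q, (1 - (1 - β) * p 0 c') * (1 - (1 - β) * p 1 c')) = S at e0 e1 e2 e3
  have hSne : S ≠ 0 := by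
    intro h
    rw [h, div_zero] at e0
    have : 0 < 1 / D := by positivity
    linarith
  have hgpos : 0 < 1 - β := by linarith
  have hg1 : 1 - β ≤ 1 := by linarith
  have f0 := solve0 _ S D hSne hDpos e0
  have f1 := solve1 _ S D (1 - β) _ hSne hDpos (by field_simp; ring) e1
  have f2 := solve1 _ S D (1 - β) _ hSne hDpos (by field_simp; ring) e2
  have f3 := solve1 _ S D (1 - β) _ hSne hDpos (by field_simp; ring) e3
  have hle1 : ∀ i c, p i c ≤ 1 := fun i c => (mem_Icc_of_mem_stdSimplex (hp i) c).2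
  have hge0 : ∀ i c, 0 ≤ p i c := fun i c => (hp i).1 c
  have hsum : ∀ i, p i c1 + p i c2 + p i c3 ≤ 1 := by
    intro i
    have h := Finset.sum_le_sum_of_subset_of_nonneg
      (Finset.subset_univ ({c1, c2, c3} : Finset (Fin q))) (f := p i) (fun c _ _ => hge0 i c)
    rw [(hp i).2, Finset.sum_insert (by simp [h12, h13]), Finset.sum_pair h23] at h
    linarith
  have hs1 : S / D ≤ 1 := by
    rw [← f0]
    exact prod_le_one _ _ _ hgpos hg1 (hge0 _ _) (hge0 _ _) (hle1 _ _)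
  exact arith _ _ _ _ _ _ _ _ hgpos hg1 hs1 (hge0 _ _) (hge0 _ _) (hge0 _ _) (hge0 _ _)
    (hge0 _ _) (hge0 _ _) (hsum 0) (hsum 1) f1 f2 f3

end Pool.Agent.Results.MP_d064d6_lc.NotConvex
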